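import Pool.Agent.Helper49.PA.GoalsA

/-! Packet GR: the Graham-Rothschild theorem for lines. -/

namespace PA49.PkGR

open Combinatorics

/-- Composition of subspaces. -/
def comp {η ζ A ι : Type} (S : Subspace η A ι) (T : Subspace ζ A η) : Subspace ζ A ι where
  idxFun i := match S.idxFun i with
    | .inl a => .inl a
    | .inr e => T.idxFun e
  proper e := by
    obtain ⟨d, hd⟩ := T.proper e
    obtain ⟨i, hi⟩ := S.proper d
    exact ⟨i, by simp only [hi, hd]⟩

theorem subO_comp {η ζ A ι : Type} (S : Subspace η A ι) (T : Subspace ζ A η) (w : ζ → Option A) :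
    subO (comp S T) w = subO S (subO T w) := by
  funext i
  unfold subO comp
  rcases h : S.idxFun i with a | e <;> simp [h]

theorem gr (h : G_LEV) : G_GR := by
  classical
  intro A κ η _ _ _ _
  rcases isEmpty_or_nonempty A with hA | hA
  · refine ⟨η, inferInstance, fun C => ⟨⟨fun i => .inr i, fun e => ⟨e, rfl⟩⟩,
      C (fun _ => none), fun w _ => ?_⟩⟩
    have : subO (⟨fun i => .inr i, fun e => ⟨e, rfl⟩⟩ : Subspace η A η) w = fun _ => none := by
      funext i
      rcases hh : subO (⟨fun i => .inr i, fun e => ⟨e, rfl⟩⟩ : Subspace η A η) w i with _ | a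
      · rfl
      · exact (hA.false a).elim
    rw [this]
  · obtain ⟨a0⟩ := hA
    have : Fintype κ := Fintype.ofFinite κ
    have : Fintype η := Fintype.ofFinite η
    set m := Fintype.card η with hm
    set r := Fintype.card κ with hr
    have : Nonempty A := ⟨a0⟩
    obtain ⟨ι, hι, hι2⟩ := h A κ (r * m + 1)
    refine ⟨ι, hι, fun C => ?_⟩
    obtain ⟨S0, hS0⟩ := hι2 C
    set w0 : Fin (r * m + 1) → Fin (r * m + 1) → Option A :=
      fun i j => if j < i then some a0 else none with hw0
    have hF0 : ∀ i, FirstAt (w0 i) i := by
      intro i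
      constructor
      · simp [hw0]
      · intro j hj
        simp [hw0, hj]
    set χ : Fin (r * m + 1) → κ := fun i => C (subO S0 (w0 i)) with hχ
    obtain ⟨c, hc⟩ := Fintype.exists_lt_card_fiber_of_mul_lt_card (n := m) χ (by
      rw [Fintype.card_fin]
      exact Nat.lt_succ_self _)
    have hcard : Fintype.card η ≤ Fintype.card {i // χ i = c} := by
      rw [Fintype.card_subtype]
      exact hc.le
    obtain ⟨σ⟩ := Function.Embedding.nonempty_of_card_le hcard
    have hσi : Function.Injective fun e => (σ e).1 := fun a b hab => σ.injective (Subtype.ext hab)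
    set f : Fin (r * m + 1) → A ⊕ η := fun i =>
      if hh : ∃ e, (σ e).1 = i then .inr hh.choose else .inl a0 with hf
    have hfσ : ∀ e, f (σ e).1 = .inr e := by
      intro e
      have hh : ∃ e', (σ e').1 = (σ e).1 := ⟨e, rfl⟩
      simp only [hf]
      rw [dif_pos hh]
      congr 1
      exact hσi hh.choose_spec
    set T : Subspace η A (Fin (r * m + 1)) := ⟨f, fun e => ⟨(σ e).1, hfσ e⟩⟩ with hT
    refine ⟨comp S0 T, c, fun w hw => ?_⟩
    rw [subO_comp]
    obtain ⟨e1, he1⟩ := hw
    obtain ⟨e0, he0, hmin⟩ := Finset.exists_min_image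
      (Finset.univ.filter fun e => w e = none) (fun e => (σ e).1) ⟨e1, by simp [he1]⟩
    have he0' : w e0 = none := by simpa using he0
    have hF : FirstAt (subO T w) (σ e0).1 := by
      constructor
      · unfold subO
        have : T.idxFun (σ e0).1 = .inr e0 := hfσ e0
        rw [this]
        exact he0'
      · intro j hj
        unfold subO
        by_cases hh : ∃ e, (σ e).1 = j
        · obtain ⟨e, rfl⟩ := hh
          have : T.idxFun (σ e).1 = .inr e := hfσ e
          rw [this]
          intro hn
          have h2 := hmin e (by simpa using hn)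
          exact absurd hj (not_lt.2 h2)
        · have : T.idxFun j = .inl a0 := by
            change f j = _
            simp only [hf]
            rw [dif_neg hh]
          rw [this]
          simp
    have h3 := hS0 (σ e0).1 (subO T w) (w0 (σ e0).1) hF (hF0 _)
    rw [h3]
    exact (σ e0).2

end PA49.PkGR
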