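import Pool.Agent.Helper49.PA.GoalsA

/-! Packet LEV: the colour depends only on the place of the first parameter. -/

namespace PA49.PkLEV

open Combinatorics

/-- Composition of subspaces. -/
def comp {η ζ A ι : Type} (S : Subspace η A ι) (T : Subspace ζ A η) : Subspace ζ A ι where
  idxFun i := match S.idxFun i with
    | .inl a => .inl a
    | .inr e => T.idxFun e
  proper e := by
    obtain ⟨d, hd⟩ := T.proper e
    obtain ⟨i, hi⟩ := S.proper d
    exact ⟨i, by simp only [hi, hd]⟩

theorem subO_comp {η ζ A ι : Type} (S : Subspace η A ι) (T : Subspace ζ A η) (w : ζ → Option A) :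
    subO (comp S T) w = subO S (subO T w) := by
  funext i
  unfold subO comp
  rcases h : S.idxFun i with a | e <;> simp [h]

theorem lev (h1 : G_PRE) (h2 : G_P2) : G_LEV := by
  intro A κ _ _ _ M
  obtain ⟨D, hD⟩ := h2 A κ M
  obtain ⟨ι, hι, hι2⟩ := h1 A κ D
  refine ⟨ι, hι, fun C => ?_⟩
  obtain ⟨S0, hS0⟩ := hι2 C
  obtain ⟨S1, pos, χ, hPos, hχ⟩ := hD
    (fun p u => C (subO S0 (fun j => if j < p then some (u j) else none)))
    (by
      intro p u u' huu
      have : (fun j => if j < p then some (u j) else none) =
          (fun j => if j < p then some (u' j) else none) := by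
        funext j
        by_cases hj : j < p
        · simp [hj, huu j hj]
        · simp [hj]
      simp only [this])
  obtain ⟨a0⟩ : Nonempty A := inferInstance
  have key : ∀ (i : Fin M) (w : Fin M → Option A), FirstAt w i →
      C (subO (comp S0 S1) w) = χ i := by
    intro i w hw
    rw [subO_comp]
    set x : Fin M → A := fun e => (w e).getD a0 with hx
    have hidx := hPos.2.1 i
    have hlt := hPos.2.2 i
    have hagree : ∀ j, j < pos i → subO S1 w j = some (S1 x j) := by
      intro j hj
      unfold subO
      rcases h : S1.idxFun j with a | e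
      · simp [Subspace.apply_def, h]
      · have hei := hlt j hj e h
        have hne := hw.2 e hei
        obtain ⟨b, hb⟩ := Option.ne_none_iff_exists'.1 hne
        simp [Subspace.apply_def, h, hx, hb]
    have hF1 : FirstAt (subO S1 w) (pos i) := by
      constructor
      · unfold subO
        rw [hidx]
        exact hw.1
      · intro j hj
        rw [hagree j hj]
        simp
    have hF2 : FirstAt (fun j => if j < pos i then some (S1 x j) else none) (pos i) := by
      constructor
      · simp
      · intro j hj
        simp [hj]
    have h3 := hS0 (pos i) (subO S1 w) (fun j => if j < pos i then some (S1 x j) else none)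
      hF1 hF2 (fun j hj => by rw [hagree j hj]; simp [hj])
    rw [h3]
    exact hχ i x
  refine ⟨comp S0 S1, fun i w w' hw hw' => ?_⟩
  rw [key i w hw, key i w' hw']

end PA49.PkLEV
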